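import Mathlib

set_option autoImplicit false

namespace Pool.Agent.Helper2.Bisym

structure Op {X : Type*} [LinearOrder X] (m : X → X → X) : Prop where
  idem : ∀ x, m x x = x
  med : ∀ x y u v, m (m x y) (m u v) = m (m x u) (m y v)
  monL : ∀ x, StrictMono (m x)
  monR : ∀ y, StrictMono (fun x => m x y)

section
variable {X : Type*} [LinearOrder X]

def ctx (m : X → X → X) : List (Bool × X) → X → X
  | [], s => s
  | (true, a) :: L, s => m (ctx m L s) a
  | (false, a) :: L, s => m a (ctx m L s)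

variable {m : X → X → X} (h : Op m)
include h

omit [LinearOrder X] h in
theorem ctx_append (L L' : List (Bool × X)) (s : X) :
    ctx m (L ++ L') s = ctx m L (ctx m L' s) := by
  induction L with
  | nil => rfl
  | cons p L ih =>
    obtain ⟨b, a⟩ := p
    cases b <;> simp [ctx, ih]

theorem ctx_strictMono (L : List (Bool × X)) : StrictMono (ctx m L) := by
  induction L with
  | nil => intro a b hab; simpa [ctx] using hab
  | cons p L ih =>
    obtain ⟨b, a⟩ := p
    intro s t hst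
    cases b
    · exact h.monL a (ih hst)
    · exact h.monR a (ih hst)

theorem ctx_hom (L : List (Bool × X)) (s t : X) :
    ctx m L (m s t) = m (ctx m L s) (ctx m L t) := by
  induction L with
  | nil => rfl
  | cons p L ih =>
    obtain ⟨b, a⟩ := p
    cases b
    · show m a (ctx m L (m s t)) = m (m a (ctx m L s)) (m a (ctx m L t))
      rw [ih, h.med, h.idem]
    · show m (ctx m L (m s t)) a = m (m (ctx m L s) a) (m (ctx m L t) a)
      rw [ih, h.med, h.idem]

def rep (a : X) (L : List (Bool × X)) : List (Bool × X) := L.map (fun p => (p.1, a))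

def mix (m : X → X → X) (a : X) (L : List (Bool × X)) : List (Bool × X) :=
  L.map (fun p => (p.1, m p.2 a))

theorem ctx_rep_self (a : X) (L : List (Bool × X)) : ctx m (rep a L) a = a := by
  induction L with
  | nil => rfl
  | cons p L ih =>
    obtain ⟨b, e⟩ := p
    cases b
    · show m a (ctx m (rep a L) a) = a
      rw [ih, h.idem]
    · show m (ctx m (rep a L) a) a = a
      rw [ih, h.idem]

theorem ctx_mix (a : X) (L : List (Bool × X)) (s t : X) :
    m (ctx m L s) (ctx m (rep a L) t) = ctx m (mix m a L) (m s t) := by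
  induction L with
  | nil => rfl
  | cons p L ih =>
    obtain ⟨b, e⟩ := p
    cases b
    · show m (m e (ctx m L s)) (m a (ctx m (rep a L) t)) = m (m e a) (ctx m (mix m a L) (m s t))
      rw [h.med, ih]
    · show m (m (ctx m L s) e) (m (ctx m (rep a L) t) a) = m (ctx m (mix m a L) (m s t)) (m e a)
      rw [h.med, ih]

theorem ctx_rep_comm (C L : List (Bool × X)) (x0 s : X) :
    ctx m C (ctx m (rep x0 L) s) = ctx m (rep (ctx m C x0) L) (ctx m C s) := by
  induction L with
  | nil => rfl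
  | cons p L ih =>
    obtain ⟨b, e⟩ := p
    cases b
    · show ctx m C (m x0 (ctx m (rep x0 L) s)) =
        m (ctx m C x0) (ctx m (rep (ctx m C x0) L) (ctx m C s))
      rw [ctx_hom h, ih]
    · show ctx m C (m (ctx m (rep x0 L) s) x0) =
        m (ctx m (rep (ctx m C x0) L) (ctx m C s)) (ctx m C x0)
      rw [ctx_hom h, ih]

theorem lt_left {x y : X} (hxy : x < y) : x < m x y := by
  have := h.monL x hxy
  rwa [h.idem] at this

theorem lt_left' {x y : X} (hxy : x < y) : x < m y x := by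
  have := h.monR x hxy
  simpa [h.idem] using this

theorem right_lt {x y : X} (hxy : x < y) : m x y < y := by
  have := h.monR y hxy
  simpa [h.idem] using this

theorem right_lt' {x y : X} (hxy : x < y) : m y x < y := by
  have := h.monL y hxy
  rwa [h.idem] at this

theorem lemB (C : List (Bool × X)) {x0 t : X} (ht : x0 < t) :
    m x0 (m (ctx m C t) (ctx m C x0)) < m t (ctx m C x0) := by
  induction C with
  | nil =>
    show m x0 (m t x0) < m t x0
    exact right_lt h (lt_left' h ht)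
  | cons p C ih =>
    obtain ⟨b, e⟩ := p
    cases b
    · show m x0 (m (m e (ctx m C t)) (m e (ctx m C x0))) < m t (m e (ctx m C x0))
      have e1 : m x0 (m (m e (ctx m C t)) (m e (ctx m C x0))) =
          m (m x0 e) (m x0 (m (ctx m C t) (ctx m C x0))) := by
        rw [h.med e, h.idem e]
        conv_lhs => rw [← h.idem x0]
        rw [h.med, h.idem x0]
      rw [e1]
      calc m (m x0 e) (m x0 (m (ctx m C t) (ctx m C x0)))
          < m (m x0 e) (m t (ctx m C x0)) := h.monL _ ih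
        _ = m (m x0 t) (m e (ctx m C x0)) := h.med _ _ _ _
        _ < m t (m e (ctx m C x0)) := h.monR _ (right_lt h ht)
    · show m x0 (m (m (ctx m C t) e) (m (ctx m C x0) e)) < m t (m (ctx m C x0) e)
      have e1 : m x0 (m (m (ctx m C t) e) (m (ctx m C x0) e)) =
          m (m x0 (m (ctx m C t) (ctx m C x0))) (m x0 e) := by
        rw [h.med (ctx m C t), h.idem e]
        conv_lhs => rw [← h.idem x0]
        rw [h.med, h.idem x0]
      rw [e1]
      calc m (m x0 (m (ctx m C t) (ctx m C x0))) (m x0 e)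
          < m (m t (ctx m C x0)) (m x0 e) := h.monR _ ih
        _ = m (m t x0) (m (ctx m C x0) e) := h.med _ _ _ _
        _ < m t (m (ctx m C x0) e) := h.monR _ (right_lt' h ht)

omit h in
/-- `Big x0 u w`: some context image of `[u, w]` contains a context image of `[x0, t]`, `t > x0`. -/
def Big (m : X → X → X) (x0 u w : X) : Prop :=
  ∃ (C D : List (Bool × X)) (t : X), x0 < t ∧ ctx m C u ≤ ctx m D x0 ∧ ctx m D t ≤ ctx m C w

variable {x0 : X}

theorem Big.lt {u w : X} (hb : Big m x0 u w) : u < w := by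
  obtain ⟨C, D, t, ht, h1, h2⟩ := hb
  have := (ctx_strictMono h D) ht
  exact (ctx_strictMono h C).lt_iff_lt.1 (lt_of_le_of_lt h1 (lt_of_lt_of_le this h2))

theorem Big.mono {u w u' w' : X} (hb : Big m x0 u w) (hu : u' ≤ u) (hw : w ≤ w') :
    Big m x0 u' w' := by
  obtain ⟨C, D, t, ht, h1, h2⟩ := hb
  exact ⟨C, D, t, ht, le_trans ((ctx_strictMono h C).monotone hu) h1,
    le_trans h2 ((ctx_strictMono h C).monotone hw)⟩

theorem Big.split {u z : X} (hb : Big m x0 u z) (w : X) : Big m x0 u w ∨ Big m x0 w z := by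
  obtain ⟨C, D, t, ht, h1, h2⟩ := hb
  rcases le_or_gt (ctx m D (m t x0)) (ctx m C w) with hc | hc
  · left
    refine ⟨C, D ++ [(true, x0)], t, ht, ?_, ?_⟩
    · rw [ctx_append]; show _ ≤ ctx m D (m x0 x0); rwa [h.idem]
    · rw [ctx_append]; exact hc
  · right
    refine ⟨C, D ++ [(false, t)], t, ht, ?_, ?_⟩
    · rw [ctx_append]; exact hc.le
    · rw [ctx_append]; show ctx m D (m t t) ≤ _; rwa [h.idem]

omit h in
theorem Big.of_ctx {u w : X} (L : List (Bool × X)) (hb : Big m x0 (ctx m L u) (ctx m L w)) :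
    Big m x0 u w := by
  obtain ⟨C, D, t, ht, h1, h2⟩ := hb
  refine ⟨C ++ L, D, t, ht, ?_, ?_⟩
  · rwa [ctx_append]
  · rwa [ctx_append]

omit h in
theorem Big.base {t : X} (ht : x0 < t) : Big m x0 x0 t := ⟨[], [], t, ht, le_rfl, le_rfl⟩

theorem Big.mid_left {x y : X} (hb : Big m x0 x y) : Big m x0 x (m x y) := by
  obtain ⟨C, D, t, ht, h1, h2⟩ := hb
  refine ⟨C, (false, ctx m C x) :: D, t, ht, ?_, ?_⟩
  · show ctx m C x ≤ m (ctx m C x) (ctx m D x0)
    calc ctx m C x = m (ctx m C x) (ctx m C x) := (h.idem _).symm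
      _ ≤ m (ctx m C x) (ctx m D x0) := (h.monL _).monotone h1
  · show m (ctx m C x) (ctx m D t) ≤ ctx m C (m x y)
    rw [ctx_hom h]
    exact (h.monL _).monotone h2

theorem Big.mid_right {x y : X} (hb : Big m x0 x y) : Big m x0 (m x y) y := by
  obtain ⟨C, D, t, ht, h1, h2⟩ := hb
  refine ⟨C, (true, ctx m C y) :: D, t, ht, ?_, ?_⟩
  · show ctx m C (m x y) ≤ m (ctx m D x0) (ctx m C y)
    rw [ctx_hom h]
    exact (h.monR _).monotone h1
  · show m (ctx m D t) (ctx m C y) ≤ ctx m C y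
    calc m (ctx m D t) (ctx m C y) ≤ m (ctx m C y) (ctx m C y) := (h.monR _).monotone h2
      _ = ctx m C y := h.idem _

theorem Big.cancel {v v' : X} (hb : Big m x0 v v') (u : X) : Big m x0 (m v u) (m v' u) := by
  obtain ⟨C, D, t, ht, h1, h2⟩ := hb
  refine ⟨C, (true, ctx m C u) :: D, t, ht, ?_, ?_⟩
  · show ctx m C (m v u) ≤ m (ctx m D x0) (ctx m C u)
    rw [ctx_hom h]
    exact (h.monR _).monotone h1
  · show m (ctx m D t) (ctx m C u) ≤ ctx m C (m v' u)
    rw [ctx_hom h]
    exact (h.monR _).monotone h2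

theorem not_big_jump {y0 r : X} (hr : ∀ x, x0 < x → r ≤ m x y0) : ¬ Big m x0 (m x0 y0) r := by
  rintro ⟨C, D, t, ht, h1, h2⟩
  set a := ctx m C x0 with ha
  set A := ctx m C y0 with hA
  set s := ctx m (rep x0 D) t with hs
  set b := ctx m C s with hb
  have hs0 : x0 < s := by
    have := (ctx_strictMono h (rep x0 D)) ht
    rwa [ctx_rep_self h] at this
  have hx : x0 < m x0 s := lt_left h hs0
  have h1' : m a A ≤ ctx m D x0 := by
    rw [ctx_hom h] at h1; exact h1
  have h2' : ctx m D t ≤ m (m a b) A := by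
    refine le_trans h2 ?_
    have := (ctx_strictMono h C).monotone (hr _ hx)
    rw [ctx_hom h, ctx_hom h] at this
    exact this
  have e1 : m (m (m a b) A) a = m (m a A) (m (m b a) a) := by
    calc m (m (m a b) A) a = m (m (m a b) A) (m a a) := by rw [h.idem a]
      _ = m (m (m a b) a) (m A a) := h.med _ _ _ _
      _ = m (m (m a b) (m a a)) (m A a) := by rw [h.idem a]
      _ = m (m (m a a) (m b a)) (m A a) := by rw [h.med a b a a]
      _ = m (m a (m b a)) (m A a) := by rw [h.idem a]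
      _ = m (m a A) (m (m b a) a) := h.med _ _ _ _
  have h3 : m (ctx m D t) a ≤ m (ctx m D x0) (m (m b a) a) := by
    calc m (ctx m D t) a ≤ m (m (m a b) A) a := (h.monR a).monotone h2'
      _ = m (m a A) (m (m b a) a) := e1
      _ ≤ m (ctx m D x0) (m (m b a) a) := (h.monR _).monotone h1'
  have hb' : b = ctx m (rep a D) (ctx m C t) := by
    rw [hb, hs, ctx_rep_comm h]
  have e2 : m (m b a) a = ctx m (rep a D) (m (m (ctx m C t) a) a) := by
    rw [ctx_hom h, ctx_hom h, ctx_rep_self h, ← hb']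
  have e3 : m (ctx m D t) a = ctx m (mix m a D) (m t a) := by
    rw [← ctx_mix h, ctx_rep_self h]
  rw [e2, e3, ctx_mix h] at h3
  have h4 : m t a ≤ m x0 (m (m (ctx m C t) a) a) :=
    (ctx_strictMono h (mix m a D)).le_iff_le.1 h3
  have hct : a < ctx m C t := (ctx_strictMono h C) ht
  have h5 : m (m (ctx m C t) a) a < m (ctx m C t) a := right_lt' h (lt_left' h hct)
  have h6 : m x0 (m (m (ctx m C t) a) a) < m x0 (m (ctx m C t) a) := h.monL _ h5
  exact absurd (lt_of_le_of_lt h4 (lt_trans h6 (lemB h C ht))) (lt_irrefl _)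

end

/-- order-theoretic properties of real intervals that are used. -/
structure Nice (X : Type*) [LinearOrder X] : Prop where
  sep : ∃ s : ℕ → X, ∀ a b : X, a < b → ∃ n, a < s n ∧ s n < b
  comp : ∀ p q : ℕ → X, Monotone p → Antitone q → (∀ n, p n ≤ q n) → ∃ z, ∀ n, p n ≤ z ∧ z ≤ q n

theorem no_right_jump {X : Type*} [LinearOrder X] (hX : Nice X) {m : X → X → X} (h : Op m)
    {x0 y0 r t0 : X} (ht0 : x0 < t0) (hr : m x0 y0 < r) : ∃ x, x0 < x ∧ m x y0 < r := by
  by_contra hcon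
  push Not at hcon
  have key := not_big_jump h hcon
  obtain ⟨s, hs⟩ := hX.sep
  set l := m x0 y0 with hl
  have hch : ∀ v : X, ∃ n, m v l < s n ∧ s n < m v r := fun v => hs _ _ (h.monL v hr)
  choose g hg using hch
  have hgne : ∀ v v', Big m x0 v v' → g v ≠ g v' := by
    intro v v' hb he
    have h1 : s (g v) < m v r := (hg v).2
    have h2 : m v' l < s (g v') := (hg v').1
    rw [← he] at h2
    have h3 : m v' l < m v r := lt_trans h2 h1
    have h4 : Big m x0 (m v l) (m v' l) := Big.cancel h hb l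
    have h5 : Big m x0 (m v l) (m v r) := Big.mono h h4 le_rfl h3.le
    exact key (Big.of_ctx [(false, v)] h5)
  -- step
  have step : ∀ (P : {P : X × X // Big m x0 P.1 P.2}) (n : ℕ),
      ∃ Q : {Q : X × X // Big m x0 Q.1 Q.2}, P.1.1 ≤ Q.1.1 ∧ Q.1.2 ≤ P.1.2 ∧
        ∀ v, Q.1.1 ≤ v → v ≤ Q.1.2 → g v ≠ n := by
    rintro ⟨⟨p, q⟩, hpq⟩ n
    have h1 : Big m x0 p (m p q) := Big.mid_left h hpq
    have h2 : Big m x0 (m p q) q := Big.mid_right h hpq
    have h3 : Big m x0 (m p q) (m (m p q) q) := Big.mid_left h h2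
    have h4 : Big m x0 (m (m p q) q) q := Big.mid_right h h2
    by_cases hA : ∃ v, p ≤ v ∧ v ≤ m p q ∧ g v = n
    · obtain ⟨v, hv1, hv2, hv3⟩ := hA
      refine ⟨⟨(m (m p q) q, q), h4⟩, (lt_trans (Big.lt h h1) (Big.lt h h3)).le, le_rfl, ?_⟩
      intro w hw1 hw2 hw3
      exact hgne v w (Big.mono h h3 hv2 hw1) (hv3.trans hw3.symm)
    · refine ⟨⟨(p, m p q), h1⟩, le_rfl, (Big.lt h h2).le, ?_⟩
      intro w hw1 hw2 hw3
      exact hA ⟨w, hw1, hw2, hw3⟩
  choose nxt hn1 hn2 hn3 using step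
  let sq : ℕ → {P : X × X // Big m x0 P.1 P.2} := fun n =>
    Nat.rec ⟨(x0, t0), Big.base ht0⟩ (fun k P => nxt P k) n
  have hsq : ∀ n, sq (n + 1) = nxt (sq n) n := fun n => rfl
  have hp : Monotone (fun n => (sq n).1.1) := monotone_nat_of_le_succ (fun n => by
    show (sq n).1.1 ≤ (sq (n + 1)).1.1
    rw [hsq]; exact hn1 _ _)
  have hq : Antitone (fun n => (sq n).1.2) := antitone_nat_of_succ_le (fun n => by
    show (sq (n + 1)).1.2 ≤ (sq n).1.2
    rw [hsq]; exact hn2 _ _)
  obtain ⟨z, hz⟩ := hX.comp _ _ hp hq (fun n => (Big.lt h (sq n).2).le)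
  have := hz (g z + 1)
  rw [hsq] at this
  exact hn3 (sq (g z)) (g z) z this.1 this.2 rfl

theorem Op.swap {X : Type*} [LinearOrder X] {m : X → X → X} (h : Op m) :
    Op (fun x y => m y x) where
  idem := h.idem
  med := fun x y u v => by
    show m (m v u) (m y x) = m (m v y) (m u x)
    exact h.med _ _ _ _
  monL := fun x => h.monR x
  monR := fun y => h.monL y

theorem Op.dual {X : Type*} [LinearOrder X] {m : X → X → X} (h : Op m) :
    Op (X := Xᵒᵈ) (fun x y => OrderDual.toDual (m (OrderDual.ofDual x) (OrderDual.ofDual y))) where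
  idem := fun x => h.idem (OrderDual.ofDual x)
  med := fun x y u v => h.med (OrderDual.ofDual x) (OrderDual.ofDual y) (OrderDual.ofDual u)
    (OrderDual.ofDual v)
  monL := fun x a b hab => h.monL (OrderDual.ofDual x) (a := OrderDual.ofDual b)
    (b := OrderDual.ofDual a) hab
  monR := fun x a b hab => h.monR (OrderDual.ofDual x) (a := OrderDual.ofDual b)
    (b := OrderDual.ofDual a) hab

theorem Nice.dual {X : Type*} [LinearOrder X] (hX : Nice X) : Nice Xᵒᵈ where
  sep := by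
    obtain ⟨s, hs⟩ := hX.sep
    refine ⟨fun n => OrderDual.toDual (s n), fun a b hab => ?_⟩
    obtain ⟨n, h1, h2⟩ := hs (OrderDual.ofDual b) (OrderDual.ofDual a) hab
    exact ⟨n, h2, h1⟩
  comp := by
    intro p q hp hq hpq
    obtain ⟨z, hz⟩ := hX.comp (fun n => OrderDual.ofDual (q n)) (fun n => OrderDual.ofDual (p n))
      (fun a b hab => hq hab) (fun a b hab => hp hab) hpq
    exact ⟨OrderDual.toDual z, fun n => ⟨(hz n).2, (hz n).1⟩⟩

theorem no_left_jump {X : Type*} [LinearOrder X] (hX : Nice X) {m : X → X → X} (h : Op m)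
    {x0 y0 r t0 : X} (ht0 : t0 < x0) (hr : r < m x0 y0) : ∃ x, x < x0 ∧ r < m x y0 := by
  obtain ⟨x, h1, h2⟩ := no_right_jump hX.dual h.dual (x0 := OrderDual.toDual x0)
    (y0 := OrderDual.toDual y0) (r := OrderDual.toDual r) (t0 := OrderDual.toDual t0) ht0 hr
  exact ⟨OrderDual.ofDual x, h1, h2⟩

theorem continuous_of_nice {X : Type*} [LinearOrder X] [TopologicalSpace X] [OrderTopology X]
    (hX : Nice X) {m : X → X → X} (h : Op m) : Continuous (fun p : X × X => m p.1 p.2) := by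
  have up : ∀ {m : X → X → X}, Op m → ∀ x0 y0 r, m x0 y0 < r →
      ∃ x1, Set.Iic x1 ∈ nhds x0 ∧ m x1 y0 < r := by
    intro m h x0 y0 r hr
    by_cases ht : ∃ t, x0 < t
    · obtain ⟨t0, ht0⟩ := ht
      obtain ⟨x, hx1, hx2⟩ := no_right_jump hX h ht0 hr
      exact ⟨x, Iic_mem_nhds hx1, hx2⟩
    · push Not at ht
      refine ⟨x0, ?_, hr⟩
      have : Set.Iic x0 = Set.univ := Set.eq_univ_of_forall ht
      rw [this]; exact Filter.univ_mem
  have lo : ∀ {m : X → X → X}, Op m → ∀ x0 y0 r, r < m x0 y0 →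
      ∃ x1, Set.Ici x1 ∈ nhds x0 ∧ r < m x1 y0 := by
    intro m h x0 y0 r hr
    by_cases ht : ∃ t, t < x0
    · obtain ⟨t0, ht0⟩ := ht
      obtain ⟨x, hx1, hx2⟩ := no_left_jump hX h ht0 hr
      exact ⟨x, Ici_mem_nhds hx1, hx2⟩
    · push Not at ht
      refine ⟨x0, ?_, hr⟩
      have : Set.Ici x0 = Set.univ := Set.eq_univ_of_forall ht
      rw [this]; exact Filter.univ_mem
  rw [continuous_iff_continuousAt]
  rintro ⟨x0, y0⟩
  refine tendsto_order.2 ⟨?_, ?_⟩
  · intro r hr
    obtain ⟨x1, hx1, hx2⟩ := lo h x0 y0 r hr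
    obtain ⟨y1, hy1, hy2⟩ := lo h.swap y0 x1 r hx2
    have := prod_mem_nhds hx1 hy1
    filter_upwards [this] with p hp
    refine lt_of_lt_of_le hy2 ?_
    exact le_trans ((h.monL x1).monotone hp.2) ((h.monR p.2).monotone hp.1)
  · intro r hr
    obtain ⟨x1, hx1, hx2⟩ := up h x0 y0 r hr
    obtain ⟨y1, hy1, hy2⟩ := up h.swap y0 x1 r hx2
    have := prod_mem_nhds hx1 hy1
    filter_upwards [this] with p hp
    refine lt_of_le_of_lt ?_ hy2
    exact le_trans ((h.monR p.2).monotone hp.1) ((h.monL x1).monotone hp.2)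

theorem nice_subtype (I : Set ℝ) (hI : I.OrdConnected) (x0 : I) : Nice I where
  sep := by
    classical
    obtain ⟨f, hf⟩ := exists_surjective_nat ℚ
    refine ⟨fun n => if hn : ((f n : ℚ) : ℝ) ∈ I then ⟨_, hn⟩ else x0, ?_⟩
    intro a b hab
    obtain ⟨q, hq1, hq2⟩ := exists_rat_btwn (show (a : ℝ) < b from hab)
    obtain ⟨n, hn⟩ := hf q
    have hqI : ((f n : ℚ) : ℝ) ∈ I := by
      rw [hn]; exact hI.out a.2 b.2 ⟨hq1.le, hq2.le⟩
    refine ⟨n, ?_, ?_⟩
    · simp only [dif_pos hqI]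
      show (a : ℝ) < ((f n : ℚ) : ℝ)
      rw [hn]; exact hq1
    · simp only [dif_pos hqI]
      show ((f n : ℚ) : ℝ) < (b : ℝ)
      rw [hn]; exact hq2
  comp := by
    intro p q hp hq hpq
    have hle : ∀ i j, (p i : ℝ) ≤ q j := by
      intro i j
      have h1 : p i ≤ p (max i j) := hp (le_max_left _ _)
      have h2 : q (max i j) ≤ q j := hq (le_max_right _ _)
      exact le_trans h1 (le_trans (hpq _) h2)
    have hbdd : BddAbove (Set.range (fun n => (p n : ℝ))) := ⟨q 0, by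
      rintro _ ⟨n, rfl⟩; exact hle n 0⟩
    have h1 : ∀ n, (p n : ℝ) ≤ ⨆ n, (p n : ℝ) := fun n => le_ciSup hbdd n
    have h2 : ∀ n, (⨆ n, (p n : ℝ)) ≤ q n := fun n => ciSup_le (fun i => hle i n)
    exact ⟨⟨⨆ n, (p n : ℝ), hI.out (p 0).2 (q 0).2 ⟨h1 0, h2 0⟩⟩, fun n => ⟨h1 n, h2 n⟩⟩

theorem main (I : Set ℝ) (hI : I.OrdConnected) (F : ℝ → ℝ → ℝ)
    (hF : ∀ x ∈ I, ∀ y ∈ I, F x y ∈ I)
    (hid : ∀ x ∈ I, F x x = x)
    (hbi : ∀ x ∈ I, ∀ y ∈ I, ∀ u ∈ I, ∀ v ∈ I, F (F x y) (F u v) = F (F x u) (F y v))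
    (h1 : ∀ x ∈ I, StrictMonoOn (F x) I)
    (h2 : ∀ y ∈ I, StrictMonoOn (fun x => F x y) I) :
    ContinuousOn (Function.uncurry F) (I ×ˢ I) := by
  have := hI
  rintro ⟨a, b⟩ ⟨ha, hb⟩
  have hX : Nice I := nice_subtype I hI ⟨a, ha⟩
  let m : I → I → I := fun x y => ⟨F x y, hF _ x.2 _ y.2⟩
  have h : Op m :=
    { idem := fun x => Subtype.ext (hid _ x.2)
      med := fun x y u v => Subtype.ext (hbi _ x.2 _ y.2 _ u.2 _ v.2)
      monL := fun x y z hyz => h1 _ x.2 y.2 z.2 hyz
      monR := fun x y z hyz => h2 _ x.2 y.2 z.2 hyz }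
  have hc := continuous_of_nice hX h
  have hc2 : Continuous (fun p : I × I => F p.1 p.2) := continuous_subtype_val.comp hc
  have hc3 : Continuous (fun p : (I ×ˢ I : Set (ℝ × ℝ)) => F p.1.1 p.1.2) := by
    have hg : Continuous (fun p : (I ×ˢ I : Set (ℝ × ℝ)) =>
        ((⟨p.1.1, p.2.1⟩ : I), (⟨p.1.2, p.2.2⟩ : I))) := by
      fun_prop
    exact hc2.comp hg
  have hc4 : ContinuousOn (Function.uncurry F) (I ×ˢ I) := by
    rw [continuousOn_iff_continuous_domRestrict]
    exact hc3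
  exact hc4 _ ⟨ha, hb⟩

end Pool.Agent.Helper2.Bisym
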